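import Pool.Agent.K3h88.VR.Stm

/-!
# VR brick NUM2: the numbers
-/

set_option autoImplicit false

namespace Pool.Agent.K3h57.VR

open Pool.Agent.K3h88.VR

theorem t_NUM2 : S_NUM2 := by
  intro k ε hk hε hε4
  have hkR : (1 : ℝ) ≤ k := by exact_mod_cast hk
  obtain ⟨δ, hδ⟩ : ∃ δ : ℝ, δ = min (1 / 2) (2 * ε / k) := ⟨_, rfl⟩
  have hδ0 : 0 < δ := by
    rw [hδ]
    have : 0 < 2 * ε / k := by positivity
    exact lt_min (by norm_num) this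
  have hδ1 : δ ≤ 1 / 2 := by rw [hδ]; exact min_le_left _ _
  have hδ2 : k * δ ≤ 2 * ε := by
    have h1 : δ ≤ 2 * ε / k := by rw [hδ]; exact min_le_right _ _
    rw [le_div_iff₀ (by linarith)] at h1
    linarith
  refine ⟨δ, hδ0, fun D' => ⟨max (2 * D' + 2) (⌈(6 + 8 * k) / ε⌉₊ + 1), fun d hd => ?_⟩⟩
  have hd1 : 2 * D' + 2 ≤ d := (le_max_left _ _).trans hd
  have hd2 : ⌈(6 + 8 * (k : ℝ)) / ε⌉₊ + 1 ≤ d := (le_max_right _ _).trans hd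
  have hd3 : (6 + 8 * (k : ℝ)) / ε < d := by
    have h1 := Nat.le_ceil ((6 + 8 * (k : ℝ)) / ε)
    have h2 : ((⌈(6 + 8 * (k : ℝ)) / ε⌉₊ + 1 : ℕ) : ℝ) ≤ d := by exact_mod_cast hd2
    push_cast at h2
    linarith
  rw [div_lt_iff₀ hε] at hd3
  have hdR : (1 : ℝ) ≤ d := by exact_mod_cast (by omega : 1 ≤ d)
  obtain ⟨a, ha⟩ : ∃ a : ℝ, a = 1 + (k : ℝ) / 4 - ε := ⟨_, rfl⟩
  obtain ⟨n, hn⟩ : ∃ n : ℕ, n = ⌈a * d⌉₊ := ⟨_, rfl⟩
  have ha1 : 1 ≤ a := by rw [ha]; linarith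
  have hn1 : a * d ≤ n := by rw [hn]; exact Nat.le_ceil _
  have hn2 : (n : ℝ) < a * d + 1 := by
    rw [hn]
    exact Nat.ceil_lt_add_one (by positivity)
  obtain ⟨ρ, hρ⟩ : ∃ ρ : ℕ, ρ = d / 2 := ⟨_, rfl⟩
  have hρ1 : 2 * (ρ : ℝ) ≤ d := by exact_mod_cast (by omega : 2 * ρ ≤ d)
  have hρ2 : (d : ℝ) ≤ 2 * ρ + 1 := by exact_mod_cast (by omega : d ≤ 2 * ρ + 1)
  have hρ0 : (0 : ℝ) ≤ ρ := Nat.cast_nonneg _
  obtain ⟨m, hm⟩ : ∃ m : ℕ, m = ⌊(2 - δ) * ((ρ : ℝ) + 1)⌋₊ := ⟨_, rfl⟩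
  have hm1 : (m : ℝ) ≤ (2 - δ) * ((ρ : ℝ) + 1) := by
    rw [hm]
    exact Nat.floor_le (by
      have : 0 ≤ 2 - δ := by linarith
      positivity)
  have hm2 : (2 - δ) * ((ρ : ℝ) + 1) < m + 1 := by
    rw [hm]
    exact Nat.lt_floor_add_one _
  have hdn : d ≤ n := by
    have h1 : (d : ℝ) ≤ n := by nlinarith
    exact_mod_cast h1
  have hρm : ρ ≤ m := by
    have h1 : (ρ : ℝ) ≤ m := by nlinarith
    exact_mod_cast h1
  have hρd : ρ ≤ d := by omega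
  refine ⟨n, m, ρ, by rw [← ha]; exact hn1, hρm, hρd, hdn, hm1, by omega, ?_⟩
  have key : (n : ℝ) + d * (n - d) + k * m < k * ((d - ρ) * (m - ρ)) := by
    have h1 : (m : ℝ) - ρ ≥ (1 - δ) * d / 2 := by nlinarith
    have h2 : (d : ℝ) - ρ ≥ d / 2 := by linarith
    have h3 : ((d : ℝ) - ρ) * (m - ρ) ≥ d / 2 * ((1 - δ) * d / 2) := by
      apply mul_le_mul h2 h1 _ (by linarith)
      have : 0 ≤ 1 - δ := by linarith
      positivity
    have h4 : (k : ℝ) * ((d - ρ) * (m - ρ)) ≥ k * (d / 2 * ((1 - δ) * d / 2)) :=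
      mul_le_mul_of_nonneg_left h3 (by linarith)
    have h5 : (k : ℝ) * (d / 2 * ((1 - δ) * d / 2)) = k * d ^ 2 / 4 - (k * δ) * d ^ 2 / 4 := by
      ring
    have h6 : (k * δ) * (d : ℝ) ^ 2 ≤ (2 * ε) * d ^ 2 :=
      mul_le_mul_of_nonneg_right hδ2 (by positivity)
    have h7 : (d : ℝ) * (n - d) ≤ d * (a * d + 1 - d) :=
      mul_le_mul_of_nonneg_left (by linarith) (by linarith)
    have h8 : (m : ℝ) ≤ 2 * (d / 2 + 1) := by
      refine hm1.trans ?_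
      apply mul_le_mul (by linarith) (by linarith) (by positivity) (by norm_num)
    have h9 : (k : ℝ) * m ≤ k * (2 * (d / 2 + 1)) := mul_le_mul_of_nonneg_left h8 (by linarith)
    have h10 : (d : ℝ) * (a * d + 1 - d) = (k / 4 - ε) * d ^ 2 + d := by
      rw [ha]; ring
    have h11 : a * d ≤ (1 + k / 4) * d := by
      apply mul_le_mul_of_nonneg_right _ (by linarith)
      rw [ha]; linarith
    have h12 : (6 + 8 * (k : ℝ)) * d < (d * ε) * d :=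
      mul_lt_mul_of_pos_right hd3 (by linarith)
    have h13 : (k : ℝ) ≤ k * d := by nlinarith
    nlinarith
  have hcast : ((n + d * (n - d) + k * m : ℕ) : ℝ) < ((k * ((d - ρ) * (m - ρ)) : ℕ) : ℝ) := by
    push_cast [Nat.cast_sub hdn, Nat.cast_sub hρm, Nat.cast_sub hρd]
    exact key
  exact_mod_cast hcast

end Pool.Agent.K3h57.VR
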